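import Mathlib

/-!
# Pairwise intersecting convex hulls with triple intersections inside `P`

`MP_a31168_co`, Q1: for an admissible family of subsets of an `n`-point set `P` of the plane,
is the number `m` of members at most `n`?  We show that this fails for EVERY `n ≥ 5`:
on the `n` points `(j, j²)`, `0 ≤ j < n` (which are in convex position) there is an
admissible family with `⌊3 (n - 1) / 2⌋ ≥ n + 1` members, namely all the pairs `{0, j}` and all
the triples `{0, 2i - 1, 2i}`.
-/

namespace Pool.Agent.Results.MP_a31168_co.ParabolaFan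

/-- The Euclidean plane. -/
abbrev Plane := EuclideanSpace ℝ (Fin 2)

/-- A family `F` of subsets of the finite planar set `P` is admissible when
(1) `1 < |S| < |P|` for every member `S` (and `S ⊆ P`), (2) the convex hulls of any two distinct
members intersect, (3) the points common to the convex hulls of three pairwise distinct members
belong to `P`.  (The members of a `Finset` are pairwise distinct.) -/
def Admissible (P : Finset Plane) (F : Finset (Finset Plane)) : Prop :=
  (∀ S ∈ F, S ⊆ P ∧ 1 < S.card ∧ S.card < P.card) ∧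
  (∀ S ∈ F, ∀ T ∈ F, S ≠ T →
    (convexHull ℝ (S : Set Plane) ∩ convexHull ℝ (T : Set Plane)).Nonempty) ∧
  (∀ S ∈ F, ∀ T ∈ F, ∀ U ∈ F, S ≠ T → S ≠ U → T ≠ U →
    convexHull ℝ (S : Set Plane) ∩ convexHull ℝ (T : Set Plane) ∩ convexHull ℝ (U : Set Plane)
      ⊆ (P : Set Plane))

/-- The point `(j, j²)`. -/
noncomputable def pt (j : ℕ) : Plane := !₂[(j : ℝ), (j : ℝ) ^ 2]

@[simp] lemma pt_zero' (j : ℕ) : pt j 0 = (j : ℝ) := by simp [pt]
@[simp] lemma pt_one' (j : ℕ) : pt j 1 = (j : ℝ) ^ 2 := by simp [pt]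

lemma pt_injective : Function.Injective pt := by
  intro a b h
  have : pt a 0 = pt b 0 := by rw [h]
  simpa using this

/-- The cone between the slopes `a` and `b`. -/
def cone (a b : ℝ) : Set Plane := {x | 0 ≤ x 0 ∧ a * x 0 ≤ x 1 ∧ x 1 ≤ b * x 0}

lemma convex_cone (a b : ℝ) : Convex ℝ (cone a b) := by
  intro x hx y hy s t hs ht hst
  simp only [cone, Set.mem_ofPred_eq, PiLp.add_apply, PiLp.smul_apply, smul_eq_mul] at *
  obtain ⟨h1, h2, h3⟩ := hx
  obtain ⟨k1, k2, k3⟩ := hy
  refine ⟨by positivity, ?_, ?_⟩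
  · nlinarith [mul_le_mul_of_nonneg_left h2 hs, mul_le_mul_of_nonneg_left k2 ht]
  · nlinarith [mul_le_mul_of_nonneg_left h3 hs, mul_le_mul_of_nonneg_left k3 ht]

lemma pt_mem_cone {j : ℕ} {a b : ℝ} (h1 : a ≤ j) (h2 : (j : ℝ) ≤ b) : pt j ∈ cone a b := by
  have hj : (0 : ℝ) ≤ j := Nat.cast_nonneg j
  refine ⟨by simpa using hj, ?_, ?_⟩
  · simp only [pt_zero', pt_one']; nlinarith
  · simp only [pt_zero', pt_one']; nlinarith

lemma zero_mem_cone (a b : ℝ) : pt 0 ∈ cone a b := by
  simp [cone]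

/-- index set of the family: `(a, b)` with `a = b` a pair, or `b = a + 1`, `a` odd, a triple -/
def idx (n : ℕ) : Finset (ℕ × ℕ) :=
  ((Finset.Icc 1 (n - 1)).image fun j => (j, j)) ∪
    ((Finset.Icc 1 ((n - 1) / 2)).image fun i => (2 * i - 1, 2 * i))

lemma mem_idx {n : ℕ} {q : ℕ × ℕ} : q ∈ idx n ↔
    (1 ≤ q.1 ∧ q.1 ≤ n - 1 ∧ q.2 = q.1) ∨
      (∃ i, 1 ≤ i ∧ i ≤ (n - 1) / 2 ∧ q.1 = 2 * i - 1 ∧ q.2 = 2 * i) := by
  unfold idx
  rw [Finset.mem_union, Finset.mem_image, Finset.mem_image]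
  constructor
  · rintro (⟨j, hj, rfl⟩ | ⟨i, hi, rfl⟩)
    · rw [Finset.mem_Icc] at hj
      exact Or.inl ⟨hj.1, hj.2, rfl⟩
    · rw [Finset.mem_Icc] at hi
      exact Or.inr ⟨i, hi.1, hi.2, rfl, rfl⟩
  · rintro (⟨h1, h2, h3⟩ | ⟨i, h1, h2, h3, h4⟩)
    · exact Or.inl ⟨q.1, Finset.mem_Icc.2 ⟨h1, h2⟩, by ext <;> simp [h3]⟩
    · exact Or.inr ⟨i, Finset.mem_Icc.2 ⟨h1, h2⟩, by ext <;> simp [h3, h4]⟩

lemma card_idx (n : ℕ) : (idx n).card = 3 * (n - 1) / 2 := by
  unfold idx
  rw [Finset.card_union_of_disjoint, Finset.card_image_of_injective, Finset.card_image_of_injOn]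
  · simp only [Nat.card_Icc]; omega
  · intro a ha b hb h
    simp only [Prod.mk.injEq] at h
    omega
  · intro a b h
    simpa using h
  · rw [Finset.disjoint_left]
    intro q h1 h2
    rw [Finset.mem_image] at h1 h2
    obtain ⟨j, hj, rfl⟩ := h1
    obtain ⟨i, hi, h⟩ := h2
    rw [Finset.mem_Icc] at hi
    simp only [Prod.mk.injEq] at h
    omega

/-- the member of the family with index `q` -/
noncomputable def mem (q : ℕ × ℕ) : Finset Plane := {pt 0, pt q.1, pt q.2}

lemma hull_mem_subset (q : ℕ × ℕ) (h : q.1 ≤ q.2) :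
    convexHull ℝ (mem q : Set Plane) ⊆ cone q.1 q.2 := by
  apply convexHull_min _ (convex_cone _ _)
  intro x hx
  simp only [mem, Finset.coe_insert, Finset.coe_singleton, Set.mem_insert_iff,
    Set.mem_singleton_iff] at hx
  have h' : (q.1 : ℝ) ≤ q.2 := by exact_mod_cast h
  rcases hx with rfl | rfl | rfl
  · exact zero_mem_cone _ _
  · exact pt_mem_cone le_rfl h'
  · exact pt_mem_cone h' le_rfl

lemma mem_idx_le {n : ℕ} {q : ℕ × ℕ} (hq : q ∈ idx n) :
    1 ≤ q.1 ∧ q.1 ≤ q.2 ∧ q.2 ≤ n - 1 ∧ q.2 ≤ q.1 + 1 := by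
  rcases mem_idx.1 hq with h | ⟨i, h1, h2, h3, h4⟩
  · omega
  · omega

lemma mem_injOn (n : ℕ) : Set.InjOn mem (idx n : Set (ℕ × ℕ)) := by
  intro q hq r hr h
  have hq' := mem_idx_le (Finset.mem_coe.1 hq)
  have hr' := mem_idx_le (Finset.mem_coe.1 hr)
  have key : ∀ j, pt j ∈ mem q ↔ j = 0 ∨ j = q.1 ∨ j = q.2 := by
    intro j
    simp only [mem, Finset.mem_insert, Finset.mem_singleton, pt_injective.eq_iff]
  have key' : ∀ j, pt j ∈ mem r ↔ j = 0 ∨ j = r.1 ∨ j = r.2 := by
    intro j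
    simp only [mem, Finset.mem_insert, Finset.mem_singleton, pt_injective.eq_iff]
  have e : ∀ j, (j = 0 ∨ j = q.1 ∨ j = q.2) ↔ (j = 0 ∨ j = r.1 ∨ j = r.2) := by
    intro j; rw [← key, ← key', h]
  have e1 := e q.1
  have e2 := e q.2
  have e3 := e r.1
  have e4 := e r.2
  have : q.1 = r.1 ∧ q.2 = r.2 := by omega
  exact Prod.ext this.1 this.2

/-- the family -/
noncomputable def family (n : ℕ) : Finset (Finset Plane) := (idx n).image mem

/-- the points -/
noncomputable def points (n : ℕ) : Finset Plane := (Finset.range n).image pt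

lemma card_points (n : ℕ) : (points n).card = n := by
  rw [points, Finset.card_image_of_injective _ pt_injective, Finset.card_range]

lemma card_family (n : ℕ) : (family n).card = 3 * (n - 1) / 2 := by
  rw [family, Finset.card_image_of_injOn (mem_injOn n), card_idx]

lemma exists_of_mem_family {n : ℕ} {S : Finset Plane} (hS : S ∈ family n) :
    ∃ q ∈ idx n, mem q = S := by
  simpa [family] using hS

lemma zero_mem_hull (q : ℕ × ℕ) : pt 0 ∈ convexHull ℝ (mem q : Set Plane) :=
  subset_convexHull _ _ (by simp [mem])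

/-- two index intervals that share a real slope, arithmetic form -/
lemma idx_overlap {n : ℕ} {q r s : ℕ × ℕ} (hq : q ∈ idx n) (hr : r ∈ idx n) (hs : s ∈ idx n)
    (h1 : q.1 ≤ r.2) (h2 : r.1 ≤ q.2) (h3 : q.1 ≤ s.2) (h4 : s.1 ≤ q.2) (h5 : r.1 ≤ s.2)
    (h6 : s.1 ≤ r.2) : q = r ∨ q = s ∨ r = s := by
  have aux : ∀ {u v : ℕ × ℕ}, u.1 = v.1 → u.2 = v.2 → u = v := fun h h' => Prod.ext h h'
  rcases mem_idx.1 hq with ⟨a1, a2, a3⟩ | ⟨i, a1, a2, a3, a4⟩ <;>
  rcases mem_idx.1 hr with ⟨b1, b2, b3⟩ | ⟨j, b1, b2, b3, b4⟩ <;>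
  rcases mem_idx.1 hs with ⟨c1, c2, c3⟩ | ⟨k, c1, c2, c3, c4⟩
  · left; apply aux <;> omega
  · left; apply aux <;> omega
  · right; left; apply aux <;> omega
  · right; right; apply aux <;> omega
  · right; right; apply aux <;> omega
  · right; left; apply aux <;> omega
  · left; apply aux <;> omega
  · left; apply aux <;> omega

lemma admissible_family {n : ℕ} (hn : 5 ≤ n) : Admissible (points n) (family n) := by
  refine ⟨?_, ?_, ?_⟩
  · intro S hS
    obtain ⟨q, hq, rfl⟩ := exists_of_mem_family hS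
    have hq' := mem_idx_le hq
    refine ⟨?_, ?_, ?_⟩
    · intro x hx
      simp only [mem, Finset.mem_insert, Finset.mem_singleton] at hx
      simp only [points, Finset.mem_image, Finset.mem_range]
      rcases hx with rfl | rfl | rfl
      · exact ⟨0, by omega, rfl⟩
      · exact ⟨q.1, by omega, rfl⟩
      · exact ⟨q.2, by omega, rfl⟩
    · rw [Finset.one_lt_card]
      refine ⟨pt 0, by simp [mem], pt q.1, by simp [mem], ?_⟩
      intro h
      have := pt_injective h
      omega
    · rw [card_points]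
      refine lt_of_le_of_lt (Finset.card_le_three) (by omega)
  · intro S hS T hT _
    obtain ⟨q, hq, rfl⟩ := exists_of_mem_family hS
    obtain ⟨r, hr, rfl⟩ := exists_of_mem_family hT
    exact ⟨pt 0, zero_mem_hull q, zero_mem_hull r⟩
  · intro S hS T hT U hU h12 h13 h23 x hx
    obtain ⟨q, hq, rfl⟩ := exists_of_mem_family hS
    obtain ⟨r, hr, rfl⟩ := exists_of_mem_family hT
    obtain ⟨s, hs, rfl⟩ := exists_of_mem_family hU
    obtain ⟨⟨hxq, hxr⟩, hxs⟩ := hx
    have cq := hull_mem_subset q (mem_idx_le hq).2.1 hxq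
    have cr := hull_mem_subset r (mem_idx_le hr).2.1 hxr
    have cs := hull_mem_subset s (mem_idx_le hs).2.1 hxs
    simp only [cone, Set.mem_ofPred_eq] at cq cr cs
    by_cases h0 : x 0 = 0
    · have h1 : x 1 = 0 := by
        rw [h0] at cq
        linarith [cq.2.1, cq.2.2]
      have : x = pt 0 := by
        ext i
        fin_cases i
        · simpa using h0
        · simpa using h1
      rw [this]
      simp only [points, Finset.coe_image, Set.mem_image, Finset.coe_range, Set.mem_Iio]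
      exact ⟨0, by omega, rfl⟩
    · exfalso
      have hpos : 0 < x 0 := lt_of_le_of_ne cq.1 (Ne.symm h0)
      have conv : ∀ a b : ℕ, (a : ℝ) * x 0 ≤ x 1 → x 1 ≤ (b : ℝ) * x 0 → a ≤ b := by
        intro a b h h'
        have : (a : ℝ) * x 0 ≤ (b : ℝ) * x 0 := le_trans h h'
        have := le_of_mul_le_mul_right this hpos
        exact_mod_cast this
      rcases idx_overlap hq hr hs (conv _ _ cq.2.1 cr.2.2) (conv _ _ cr.2.1 cq.2.2)
        (conv _ _ cq.2.1 cs.2.2) (conv _ _ cs.2.1 cq.2.2) (conv _ _ cr.2.1 cs.2.2)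
        (conv _ _ cs.2.1 cr.2.2) with h | h | h
      · exact h12 (by rw [h])
      · exact h13 (by rw [h])
      · exact h23 (by rw [h])

/-- the points `(j, j²)` are in convex position -/
lemma convexPosition (n : ℕ) : ∀ x ∈ points n,
    x ∉ convexHull ℝ ((points n : Set Plane) \ {x}) := by
  intro x hx hmem
  simp only [points, Finset.mem_image, Finset.mem_range] at hx
  obtain ⟨j, hj, rfl⟩ := hx
  have hsub : convexHull ℝ ((points n : Set Plane) \ {pt j}) ⊆
      {y : Plane | 1 ≤ y 1 - 2 * (j : ℝ) * y 0 + (j : ℝ) ^ 2} := by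
    apply convexHull_min
    · rintro y ⟨hy, hne⟩
      simp only [points, Finset.coe_image, Set.mem_image, Finset.coe_range, Set.mem_Iio] at hy
      obtain ⟨i, hi, rfl⟩ := hy
      have hij : i ≠ j := by
        rintro rfl; exact hne rfl
      simp only [Set.mem_ofPred_eq, pt_zero', pt_one']
      have : (1 : ℤ) ≤ ((i : ℤ) - j) ^ 2 := by
        have h : ((i : ℤ) - j) ≠ 0 := by omega
        have := sq_pos_of_ne_zero h
        omega
      have h2 : (1 : ℝ) ≤ ((i : ℝ) - j) ^ 2 := by exact_mod_cast this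
      nlinarith
    · intro y hy z hz s t hs ht hst
      simp only [Set.mem_ofPred_eq, PiLp.add_apply, PiLp.smul_apply, smul_eq_mul] at *
      nlinarith [mul_le_mul_of_nonneg_left hy hs, mul_le_mul_of_nonneg_left hz ht]
  have := hsub hmem
  simp only [Set.mem_ofPred_eq, pt_zero', pt_one'] at this
  nlinarith

/-- **The bound `m ≤ n` fails for every `n ≥ 5`.**  For every `n ≥ 5` there are a set `P` of `n`
points of the plane, in convex position, and an admissible family of `⌊3 (n - 1) / 2⌋ ≥ n + 1`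
subsets of `P`. -/
theorem result : ∀ n : ℕ, 5 ≤ n → ∃ (P : Finset Plane) (F : Finset (Finset Plane)),
    P.card = n ∧ (∀ x ∈ P, x ∉ convexHull ℝ ((P : Set Plane) \ {x})) ∧
      Admissible P F ∧ F.card = 3 * (n - 1) / 2 ∧ n + 1 ≤ F.card := by
  intro n hn
  refine ⟨points n, family n, card_points n, convexPosition n, admissible_family hn,
    card_family n, ?_⟩
  rw [card_family]
  omega

end Pool.Agent.Results.MP_a31168_co.ParabolaFan
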